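import Pool.Agent.Q72.AL.Stm

/-!
# Job WT of project AL
-/

set_option autoImplicit false

open Complex MeasureTheory Filter Topology Set

namespace Pool.Agent.Q54.AL

open Pool.Agent.Q72.AL

noncomputable section

/-- the exponential -/
def ee (ξ T : ℝ) : ℂ := cexp (((T * ξ : ℝ) : ℂ) * I)

lemma norm_ee (ξ T : ℝ) : ‖ee ξ T‖ = 1 := by
  unfold ee
  exact Complex.norm_exp_ofReal_mul_I _

lemma continuous_ee (ξ : ℝ) : Continuous (ee ξ) := by
  unfold ee
  fun_prop

lemma hasDerivAt_ee {ξ : ℝ} (hξ : ξ ≠ 0) (T : ℝ) :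
    HasDerivAt (fun T => ee ξ T / (ξ * I)) (ee ξ T) T := by
  have h1 : HasDerivAt (fun T : ℝ => (((T * ξ : ℝ) : ℂ) * I)) ((ξ : ℂ) * I) T := by
    have h0 : HasDerivAt (fun T : ℝ => T * ξ) ξ T := by
      simpa using (hasDerivAt_id T).mul_const ξ
    exact (h0.ofReal_comp).mul_const I
  have h2 := (h1.cexp).div_const ((ξ : ℂ) * I)
  have h3 : ((ξ : ℂ) * I) ≠ 0 := mul_ne_zero (by exact_mod_cast hξ) I_ne_zero
  unfold ee
  exact h2.congr_deriv (mul_div_cancel_right₀ _ h3)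

lemma ibp (f f' : ℝ → ℝ) (a b ξ : ℝ) (hξ : ξ ≠ 0) (hf : ∀ T ∈ uIcc a b, HasDerivAt f (f' T) T)
    (hc : ContinuousOn f' (uIcc a b)) :
    ∫ T in a..b, ((f T : ℝ) : ℂ) * ee ξ T =
      (((f b : ℝ) : ℂ) * ee ξ b - ((f a : ℝ) : ℂ) * ee ξ a) / (ξ * I) -
        (1 / (ξ * I)) * ∫ T in a..b, ((f' T : ℝ) : ℂ) * ee ξ T := by
  have h := intervalIntegral.integral_mul_deriv_eq_deriv_mul (a := a) (b := b)
    (u := fun T => ((f T : ℝ) : ℂ)) (u' := fun T => ((f' T : ℝ) : ℂ))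
    (v := fun T => ee ξ T / (ξ * I)) (v' := fun T => ee ξ T)
    (fun T hT => (hf T hT).ofReal_comp) (fun T _ => hasDerivAt_ee hξ T)
    ((Complex.continuous_ofReal.comp_continuousOn hc).intervalIntegrable)
    ((continuous_ee ξ).intervalIntegrable _ _)
  rw [h, ← intervalIntegral.integral_const_mul]
  have h4 : (∫ T in a..b, ((f' T : ℝ) : ℂ) * (ee ξ T / (ξ * I))) =
      ∫ T in a..b, 1 / (ξ * I) * (((f' T : ℝ) : ℂ) * ee ξ T) := by
    congr 1
    funext T
    ring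
  rw [h4]
  ring

lemma osc {a b ξ : ℝ} (ha : 0 < a) (hab : a ≤ b) (hξ : ξ ≠ 0) :
    ‖∫ T in a..b, ((T⁻¹ : ℝ) : ℂ) * ee ξ T‖ ≤ 2 / (a * |ξ|) := by
  have hpos : ∀ T ∈ uIcc a b, 0 < T := by
    intro T hT
    rw [uIcc_of_le hab] at hT
    exact ha.trans_le hT.1
  have hb : 0 < b := ha.trans_le hab
  have hx : 0 < |ξ| := abs_pos.2 hξ
  have h := ibp (fun T => T⁻¹) (fun T => -(T ^ 2)⁻¹) a b ξ hξ
    (fun T hT => hasDerivAt_inv (hpos T hT).ne')
    (by
      refine ContinuousOn.neg (ContinuousOn.inv₀ (by fun_prop) ?_)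
      intro T hT
      exact pow_ne_zero 2 (hpos T hT).ne')
  rw [h]
  have hn : ‖(ξ : ℂ) * I‖ = |ξ| := by
    rw [norm_mul, Complex.norm_I, mul_one, Complex.norm_real, Real.norm_eq_abs]
  have h1 : ‖(((b⁻¹ : ℝ) : ℂ) * ee ξ b - ((a⁻¹ : ℝ) : ℂ) * ee ξ a) / (ξ * I)‖ ≤
      (b⁻¹ + a⁻¹) / |ξ| := by
    rw [norm_div, hn]
    refine div_le_div_of_nonneg_right ?_ hx.le
    refine (norm_sub_le _ _).trans ?_
    rw [norm_mul, norm_mul, norm_ee, norm_ee, mul_one, mul_one, Complex.norm_real,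
      Complex.norm_real, Real.norm_of_nonneg (inv_nonneg.2 hb.le),
      Real.norm_of_nonneg (inv_nonneg.2 ha.le)]
  have h2 : ‖∫ T in a..b, ((-(T ^ 2)⁻¹ : ℝ) : ℂ) * ee ξ T‖ ≤ a⁻¹ - b⁻¹ := by
    have h3 : ∫ T in a..b, (T ^ 2)⁻¹ = a⁻¹ - b⁻¹ := by
      have h4 := intervalIntegral.integral_eq_sub_of_hasDerivAt (a := a) (b := b)
        (f := fun T : ℝ => -T⁻¹) (f' := fun T : ℝ => (T ^ 2)⁻¹)
        (fun T hT => by
          have := (hasDerivAt_inv (hpos T hT).ne').fun_neg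
          simpa using this)
        (by
          refine ContinuousOn.intervalIntegrable ?_
          refine ContinuousOn.inv₀ (by fun_prop) ?_
          intro T hT
          exact pow_ne_zero 2 (hpos T hT).ne')
      rw [h4]
      ring
    rw [← h3]
    refine intervalIntegral.norm_integral_le_of_norm_le hab ?_ ?_
    · refine Filter.Eventually.of_forall fun T hT => ?_
      rw [norm_mul, norm_ee, mul_one, Complex.norm_real, Real.norm_eq_abs, abs_neg,
        abs_of_nonneg (by positivity)]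
    · refine ContinuousOn.intervalIntegrable ?_
      refine ContinuousOn.inv₀ (by fun_prop) ?_
      intro T hT
      exact pow_ne_zero 2 (hpos T hT).ne'
  refine (norm_sub_le _ _).trans ?_
  have h3 : ‖(1 / (ξ * I)) * ∫ T in a..b, ((-(T ^ 2)⁻¹ : ℝ) : ℂ) * ee ξ T‖ ≤
      (a⁻¹ - b⁻¹) / |ξ| := by
    rw [norm_mul, norm_div, norm_one, hn, one_div, inv_mul_eq_div]
    exact div_le_div_of_nonneg_right h2 hx.le
  refine (add_le_add h1 h3).trans (le_of_eq ?_)
  field_simp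
  ring

lemma wt_left {τ : ℝ} (h1 : 1 ≤ τ) (h2 : τ ≤ Real.sqrt 2) : wt τ = Real.log τ := by
  have h3 : 0 ≤ Real.log τ := Real.log_nonneg h1
  have h4 : Real.log τ ≤ Real.log 2 / 2 := by
    rw [← Real.log_sqrt (by norm_num)]
    exact Real.log_le_log (by linarith) h2
  unfold wt
  rw [min_eq_left (by linarith), max_eq_right h3]

lemma wt_right {τ : ℝ} (h1 : Real.sqrt 2 ≤ τ) (h2 : τ ≤ 2) : wt τ = Real.log 2 - Real.log τ := by
  have h0 : 0 < Real.sqrt 2 := Real.sqrt_pos.2 (by norm_num)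
  have h3 : Real.log τ ≤ Real.log 2 := Real.log_le_log (by linarith) h2
  have h4 : Real.log 2 / 2 ≤ Real.log τ := by
    rw [← Real.log_sqrt (by norm_num)]
    exact Real.log_le_log h0 h1
  unfold wt
  rw [min_eq_right (by linarith), max_eq_right (by linarith)]

lemma continuousOn_wt : ContinuousOn wt (Ioi 0) := by
  unfold wt
  have h : ContinuousOn Real.log (Ioi 0) :=
    Real.continuousOn_log.mono fun x hx => ne_of_gt hx
  exact continuousOn_const.sup (h.inf (continuousOn_const.sub h))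

lemma sqrt_two_bounds : 1 < Real.sqrt 2 ∧ Real.sqrt 2 < 2 := by
  constructor
  · rw [Real.lt_sqrt (by norm_num)]
    norm_num
  · rw [Real.sqrt_lt' (by norm_num)]
    norm_num

lemma wt_main {X ξ : ℝ} (hX : 0 < X) (hξ : ξ ≠ 0) :
    ‖∫ T in X..(2 * X), ((wt (T / X) : ℝ) : ℂ) * ee ξ T‖ ≤ 4 / (X * ξ ^ 2) := by
  obtain ⟨hs1, hs2⟩ := sqrt_two_bounds
  set m : ℝ := Real.sqrt 2 * X with hm
  have hXm : X ≤ m := by rw [hm]; nlinarith
  have hmX : m ≤ 2 * X := by rw [hm]; nlinarith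
  have hm0 : 0 < m := hX.trans_le hXm
  have hcont : ContinuousOn (fun T : ℝ => ((wt (T / X) : ℝ) : ℂ) * ee ξ T) (Ioi 0) := by
    refine ContinuousOn.mul (Complex.continuous_ofReal.comp_continuousOn ?_)
      (continuous_ee ξ).continuousOn
    refine continuousOn_wt.comp (by fun_prop) ?_
    intro T hT
    exact div_pos hT hX
  have hii : ∀ a b : ℝ, 0 < a → 0 < b →
      IntervalIntegrable (fun T : ℝ => ((wt (T / X) : ℝ) : ℂ) * ee ξ T) volume a b := by
    intro a b ha hb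
    refine (hcont.mono ?_).intervalIntegrable
    intro T hT
    exact (lt_min ha hb).trans_le hT.1
  rw [← intervalIntegral.integral_add_adjacent_intervals (hii X m hX hm0)
    (hii m (2 * X) hm0 (by linarith))]
  have e1 : ∫ T in X..m, ((wt (T / X) : ℝ) : ℂ) * ee ξ T =
      ∫ T in X..m, ((Real.log (T / X) : ℝ) : ℂ) * ee ξ T := by
    refine intervalIntegral.integral_congr fun T hT => ?_
    rw [uIcc_of_le hXm] at hT
    have h1 : 1 ≤ T / X := by rw [le_div_iff₀ hX]; linarith [hT.1]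
    have h2 : T / X ≤ Real.sqrt 2 := by rw [div_le_iff₀ hX]; exact hT.2
    simp only [wt_left h1 h2]
  have e2 : ∫ T in m..(2 * X), ((wt (T / X) : ℝ) : ℂ) * ee ξ T =
      ∫ T in m..(2 * X), ((Real.log 2 - Real.log (T / X) : ℝ) : ℂ) * ee ξ T := by
    refine intervalIntegral.integral_congr fun T hT => ?_
    rw [uIcc_of_le hmX] at hT
    have h1 : Real.sqrt 2 ≤ T / X := by rw [le_div_iff₀ hX]; exact hT.1
    have h2 : T / X ≤ 2 := by rw [div_le_iff₀ hX]; exact hT.2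
    simp only [wt_right h1 h2]
  have hd : ∀ T : ℝ, 0 < T → HasDerivAt (fun T => Real.log (T / X)) T⁻¹ T := by
    intro T hT
    have h0 : HasDerivAt (fun T : ℝ => T / X) (1 / X) T := (hasDerivAt_id T).div_const X
    have h1 := h0.log (div_pos hT hX).ne'
    convert h1 using 1
    field_simp
  have h1 := ibp (fun T => Real.log (T / X)) (fun T => T⁻¹) X m ξ hξ
    (fun T hT => hd T (by rw [uIcc_of_le hXm] at hT; exact hX.trans_le hT.1))
    (by
      refine ContinuousOn.inv₀ continuousOn_id ?_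
      intro T hT
      rw [uIcc_of_le hXm] at hT
      exact (hX.trans_le hT.1).ne')
  have h2 := ibp (fun T => Real.log 2 - Real.log (T / X)) (fun T => -T⁻¹) m (2 * X) ξ hξ
    (fun T hT => (hd T (by rw [uIcc_of_le hmX] at hT; exact hm0.trans_le hT.1)).const_sub _)
    (by
      refine ContinuousOn.neg (ContinuousOn.inv₀ continuousOn_id ?_)
      intro T hT
      rw [uIcc_of_le hmX] at hT
      exact (hm0.trans_le hT.1).ne')
  have v1 : Real.log (X / X) = 0 := by rw [div_self hX.ne', Real.log_one]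
  have v2 : Real.log 2 - Real.log (2 * X / X) = 0 := by
    rw [mul_div_assoc, div_self hX.ne', mul_one, sub_self]
  have v3 : Real.log 2 - Real.log (m / X) = Real.log (m / X) := by
    have : m / X = Real.sqrt 2 := by rw [hm, mul_div_assoc, div_self hX.ne', mul_one]
    rw [this, Real.log_sqrt (by norm_num)]
    ring
  rw [e1, e2, h1, h2]
  simp only [v1, v2, v3]
  have h5 : ∫ T in m..(2 * X), ((-T⁻¹ : ℝ) : ℂ) * ee ξ T =
      -∫ T in m..(2 * X), ((T⁻¹ : ℝ) : ℂ) * ee ξ T := by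
    rw [← intervalIntegral.integral_neg]
    congr 1
    funext T
    push_cast
    ring
  rw [h5]
  have hx : 0 < |ξ| := abs_pos.2 hξ
  have hn : ‖(ξ : ℂ) * I‖ = |ξ| := by
    rw [norm_mul, Complex.norm_I, mul_one, Complex.norm_real, Real.norm_eq_abs]
  have o1 := osc hX hXm hξ
  have o2 := osc hm0 hmX hξ
  set A : ℂ := ∫ T in X..m, ((T⁻¹ : ℝ) : ℂ) * ee ξ T with hA
  set B : ℂ := ∫ T in m..(2 * X), ((T⁻¹ : ℝ) : ℂ) * ee ξ T with hB
  have e3 : (((Real.log (m / X) : ℝ) : ℂ) * ee ξ m - ((0 : ℝ) : ℂ) * ee ξ X) / (ξ * I) -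
        1 / (ξ * I) * A + ((((0 : ℝ) : ℂ) * ee ξ (2 * X) -
          ((Real.log (m / X) : ℝ) : ℂ) * ee ξ m) / (ξ * I) - 1 / (ξ * I) * -B) =
      (B - A) / (ξ * I) := by
    push_cast
    ring
  rw [e3, norm_div, hn]
  have h6 : ‖B - A‖ ≤ 4 / (X * |ξ|) := by
    refine (norm_sub_le _ _).trans ?_
    have h7 : 2 / (m * |ξ|) ≤ 2 / (X * |ξ|) := by
      refine div_le_div_of_nonneg_left (by norm_num) (by positivity) ?_
      exact mul_le_mul_of_nonneg_right hXm hx.le
    calc ‖B‖ + ‖A‖ ≤ 2 / (X * |ξ|) + 2 / (X * |ξ|) := add_le_add (o2.trans h7) o1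
      _ = 4 / (X * |ξ|) := by ring
  calc ‖B - A‖ / |ξ| ≤ 4 / (X * |ξ|) / |ξ| := div_le_div_of_nonneg_right h6 hx.le
    _ = 4 / (X * ξ ^ 2) := by
      rw [div_div, mul_assoc, ← sq, sq_abs]

theorem wt_ : J_WT := by
  obtain ⟨hs1, hs2⟩ := sqrt_two_bounds
  refine ⟨?_, continuousOn_wt, ?_, 4, by norm_num, fun X ξ hX hξ => wt_main hX hξ⟩
  · intro τ hτ
    refine ⟨le_max_left _ _, max_le zero_le_one ((min_le_left _ _).trans ?_)⟩
    have h1 : Real.log τ ≤ τ - 1 := Real.log_le_sub_one_of_pos (by linarith [hτ.1])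
    linarith [hτ.2]
  · unfold W0
    refine intervalIntegral.intervalIntegral_pos_of_pos_on ?_ ?_ (by norm_num)
    · refine (continuousOn_wt.mono ?_).intervalIntegrable
      intro T hT
      rw [uIcc_of_le (by norm_num)] at hT
      exact lt_of_lt_of_le one_pos hT.1
    · intro τ hτ
      unfold wt
      refine lt_max_of_lt_right (lt_min (Real.log_pos hτ.1) ?_)
      have := Real.log_lt_log (by linarith [hτ.1]) hτ.2
      linarith

end

end Pool.Agent.Q54.AL
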